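import Pool.Agent.Work.MP_913c95_al.Circ

open Pool.Agent.Work.MP_913c95_al

/-- Every countable set of orientation preserving circle homeomorphisms lies in an infinite
finitely generated Kazhdan group of orientation preserving circle homeomorphisms. -/
theorem Pool.Agent.Results.MP_913c95_al.KazhdanOvergroup.result
    (Λ : Set (Circle ≃ₜ Circle)) (hΛ : Λ.Countable) (ho : ∀ φ ∈ Λ, OrientPres φ) :
    ∃ G : Subgroup (Circle ≃ₜ Circle), Λ ⊆ G ∧ (∀ φ ∈ G, OrientPres φ) ∧ Group.FG G ∧
      Infinite G ∧ Kazhdan G :=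
  kazhdan_overgroup Λ hΛ ho
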